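import Pool.Agent.Run7.h982.CF.Asm
import Pool.Agent.Run7.h361.CF.CB
import Pool.Agent.Run7.h56.CF.DIG
import Pool.Agent.Run7.h437.CF.COMB
import Pool.Agent.Run7.h191.CF.SUM

/-!
# MP_c42e77_an, Q2: a level set `L_ω(x)` which is countable and nonempty

Negative answer to Q2. Let `b_k = 1/(k+4)!`, `a_k = ∑_{j ≥ k} b_j` and
`x = (a_0, b_0, a_1, b_1, ...)`, a strictly decreasing sequence. For `ε` put `α_k = ε(2k)`,
`β_k = ε(2k+1)`, `A_j = ∑_{k ≤ j} α_k`, `c_j = β_j + A_j`. Then `f(ε) = ∑ c_j b_j`, and this
determines the `c_j` (`c_j ≤ j + 2` and `∑_{i > j} (i + 2) b_i < b_j`). So a fibre is the set of all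
`β` for which `A_j = c_j - β_j` has increments in `{0, 1}`: the paths in a chain with two states. If
the increments of `c` are not eventually `0` and not eventually `1`, then an infinite fibre has no
isolated point, so it is uncountable. Hence `L_ω(x)` is contained in the countable set of the values
for which the increments of `c` are eventually `0` or eventually `1`. It is not empty:
`a_0 = b_0 + ... + b_{k-1} + a_k` for all `k`.

Authors: helper982 (example, proof, assembly), helper361 (`CNT`, `BASE`), helper56 (`DIG`),
helper191 (`SUM`), helper437 (`COMB`).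
-/

set_option autoImplicit false

namespace Pool.Agent.Results.MP_c42e77_an.CountableLevel

open Pool.Agent.Results.MP_c42e77_an.ContinuumLevel

/-- **Q2, answered negatively.** There is a summable, strictly decreasing sequence `x` of positive
reals for which the level set `L_ω(x)` of the cardinality function is nonempty and countable; in
particular it does not contain a Cantor set. -/
theorem result : ∃ x : ℕ → ℝ, (∀ n, 0 < x n) ∧ Summable x ∧ (∀ n, x (n + 1) < x n) ∧
    (levelSet x Cardinal.aleph0).Nonempty ∧ (levelSet x Cardinal.aleph0).Countable ∧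
    ¬ ∃ C ⊆ levelSet x Cardinal.aleph0, Nonempty (C ≃ₜ cantorSet) :=
  ⟨Pool.Agent.Run7.h982.CF.xs, Pool.Agent.Run7.h982.CF.final Pool.Agent.Run7.h191.CF.t_SUM
    Pool.Agent.Run7.h56.CF.t_DIG Pool.Agent.Run7.h437.CF982.t_COMB Pool.Agent.Run7.h361.CF.CNT
    Pool.Agent.Run7.h361.CF.BASE⟩

end Pool.Agent.Results.MP_c42e77_an.CountableLevel
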